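import Mathlib
import Pool.Agent.V1175.MS.Log

/-!
# The sequence `log(k+2)/k!` is a multiplier sequence
-/

set_option autoImplicit false

namespace Pool.Agent.Results.MP_13c559_an.LogMultiplier

open Polynomial

/-- The linear operator on real polynomials with `T[x^k] = γ_k x^k`: it maps
`p = ∑ a_k x^k` to `∑ γ_k a_k x^k`. -/
noncomputable def diag (γ : ℕ → ℝ) (p : ℝ[X]) : ℝ[X] :=
  ∑ k ∈ Finset.range (p.natDegree + 1), C (γ k * p.coeff k) * X ^ k

/-- All complex zeros of `p` are real. -/
def OnlyRealZeros (p : ℝ[X]) : Prop := ∀ z : ℂ, aeval z p = 0 → z.im = 0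

/-- `γ` is a (classical) multiplier sequence: the operator `T[x^k] = γ_k x^k` maps real
polynomials with only real zeros to polynomials with only real zeros. -/
def IsMultiplierSequence (γ : ℕ → ℝ) : Prop :=
  ∀ p : ℝ[X], OnlyRealZeros p → OnlyRealZeros (diag γ p)

/-- The sequence `log(k+2)/k!` is a multiplier sequence. -/
theorem result : IsMultiplierSequence (fun k => Real.log (k + 2) / (k.factorial : ℝ)) := by
  intro p hp
  have hp0 : p ≠ 0 := by
    rintro rfl
    have := hp Complex.I (by simp)
    simp at this
  have h := Pool.Agent.V1175.MS.log_mult p.natDegree p (Or.inr hp) le_rfl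
  rcases h with h | h
  · exfalso
    have h1 := congrArg (fun q => q.coeff p.natDegree) h
    unfold Pool.Agent.V1175.MS.Tn at h1
    simp only [finsetSum_coeff, coeff_C_mul_X_pow, coeff_zero] at h1
    rw [Finset.sum_eq_single p.natDegree] at h1
    · simp only [if_true] at h1
      have h2 : p.coeff p.natDegree ≠ 0 := by
        rw [coeff_natDegree]; exact leadingCoeff_ne_zero.mpr hp0
      have h3 : 0 < Real.log ((p.natDegree : ℝ) + 2) := by
        apply Real.log_pos
        have : (0 : ℝ) ≤ p.natDegree := Nat.cast_nonneg _
        linarith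
      have h4 : (0 : ℝ) < (p.natDegree.factorial : ℝ) := by positivity
      rcases mul_eq_zero.mp h1 with h5 | h5
      · exact absurd h5 (by positivity)
      · exact h2 h5
    · intro j _ hj
      rw [if_neg (Ne.symm hj)]
    · intro hh; exact absurd (Finset.mem_range.mpr (Nat.lt_succ_self _)) hh
  · exact h

end Pool.Agent.Results.MP_13c559_an.LogMultiplier
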